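import Mathlib

/-!
# TOL: a function which is not almost everywhere constant on `[-1, 1]` is detected by the derivative of a smooth function
with compact support in `(-1, 1)` (lemma of du Bois-Reymond)
-/

set_option autoImplicit false
open MeasureTheory Set Filter Topology
open scoped ContDiff

namespace Pool.Agent.Helper89.TOL

lemma bump_ex : ∃ χ : ℝ → ℝ, ContDiff ℝ ∞ χ ∧ HasCompactSupport χ ∧ tsupport χ ⊆ Ioo (-1) 1 ∧ ∫ x, χ x = 1 := by
  let f : ContDiffBump (0 : ℝ) := ⟨1 / 4, 1 / 2, by norm_num, by norm_num⟩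
  refine ⟨f.normed volume, f.contDiff_normed, f.hasCompactSupport_normed, ?_, f.integral_normed⟩
  rw [f.tsupport_normed_eq]
  intro x hx
  rw [Metric.mem_closedBall, Real.dist_eq, sub_zero] at hx
  have h1 : |x| ≤ 1 / 2 := hx
  have h2 := abs_le.1 h1
  exact ⟨by linarith [h2.1], by linarith [h2.2]⟩

/-- the primitive of a function with integral `0` and compact support in `(-1, 1)` -/
lemma prim_ex {h : ℝ → ℝ} (h1 : ContDiff ℝ ∞ h) (h2 : HasCompactSupport h) (h3 : tsupport h ⊆ Ioo (-1) 1) (h4 : ∫ x, h x = 0) :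
    ∃ Ψ : ℝ → ℝ, ContDiff ℝ ∞ Ψ ∧ HasCompactSupport Ψ ∧ tsupport Ψ ⊆ Ioo (-1) 1 ∧ deriv Ψ = h := by
  have hc : Continuous h := h1.continuous
  have hint : ∀ a b : ℝ, IntervalIntegrable h volume a b := fun a b => hc.intervalIntegrable a b
  -- the support lies in a compact interval
  obtain ⟨a, b, hab, ha, hb, hK⟩ : ∃ a b : ℝ, a ≤ b ∧ -1 < a ∧ b < 1 ∧ tsupport h ⊆ Icc a b := by
    rcases (tsupport h).eq_empty_or_nonempty with he | hne
    · exact ⟨0, 0, le_rfl, by norm_num, by norm_num, by rw [he]; exact empty_subset _⟩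
    · have hcp : IsCompact (tsupport h) := h2
      have m1 := h3 (hcp.sInf_mem hne)
      have m2 := h3 (hcp.sSup_mem hne)
      refine ⟨sInf (tsupport h), sSup (tsupport h), ?_, m1.1, m2.2, fun x hx => ⟨csInf_le hcp.bddBelow hx, le_csSup hcp.bddAbove hx⟩⟩
      exact Real.sInf_le_sSup _ hcp.bddBelow hcp.bddAbove
  have hz : ∀ x, x ∉ Icc a b → h x = 0 := fun x hx => image_eq_zero_of_notMem_tsupport fun hx' => hx (hK hx')
  set Ψ : ℝ → ℝ := fun x => ∫ t in (-1 : ℝ)..x, h t with hΨ
  have hd : ∀ x, HasDerivAt Ψ (h x) x := fun x =>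
    intervalIntegral.integral_hasDerivAt_right (hint _ _) hc.aestronglyMeasurable.stronglyMeasurableAtFilter hc.continuousAt
  have hder : deriv Ψ = h := funext fun x => (hd x).deriv
  have hcd : ContDiff ℝ ∞ Ψ := by
    rw [contDiff_infty_iff_deriv]
    exact ⟨fun x => (hd x).differentiableAt, by rw [hder]; exact h1⟩
  have hsup : ∀ x, x ∉ Icc a b → Ψ x = 0 := by
    intro x hx
    rw [mem_Icc, not_and_or, not_le, not_le] at hx
    rcases hx with hx | hx
    · show ∫ t in (-1 : ℝ)..x, h t = 0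
      rw [intervalIntegral.integral_congr (g := fun _ => (0 : ℝ))]
      · simp
      · intro t ht
        refine hz t fun ht' => ?_
        rcases le_total (-1 : ℝ) x with h5 | h5
        · rw [uIcc_of_le h5] at ht
          linarith [ht.2, ht'.1]
        · rw [uIcc_of_ge h5] at ht
          linarith [ht.2, ht'.1]
    · show ∫ t in (-1 : ℝ)..x, h t = 0
      have h5 : ∫ t in (-1 : ℝ)..x, h t = ∫ t, h t := by
        refine intervalIntegral.integral_eq_integral_of_support_subset ?_
        intro t ht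
        have ht' := hK (subset_tsupport h ht)
        exact ⟨by linarith [ht'.1], by linarith [ht'.2]⟩
      rw [h5, h4]
  have hts : tsupport Ψ ⊆ Icc a b := by
    refine closure_minimal (fun x hx => ?_) isClosed_Icc
    by_contra h5
    exact hx (hsup x h5)
  refine ⟨Ψ, hcd, ?_, hts.trans fun x hx => ⟨by linarith [hx.1], by linarith [hx.2]⟩, hder⟩
  exact isCompact_Icc.of_isClosed_subset (isClosed_tsupport _) hts

theorem exists_psi {g : ℝ → ℝ} (hg : IntegrableOn g (Icc (-1) 1))
    (hne : ¬ ∃ c : ℝ, ∀ᵐ x ∂(volume.restrict (Icc (-1 : ℝ) 1)), g x = c) :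
    ∃ Ψ : ℝ → ℝ, ContDiff ℝ ∞ Ψ ∧ HasCompactSupport Ψ ∧ tsupport Ψ ⊆ Ioo (-1) 1 ∧
      (∫ x in (-1 : ℝ)..1, g x * deriv Ψ x) ≠ 0 := by
  by_contra hcon
  push Not at hcon
  obtain ⟨χ, hχ1, hχ2, hχ3, hχ4⟩ := bump_ex
  have hgi : IntervalIntegrable g volume (-1) 1 := by
    rw [intervalIntegrable_iff_integrableOn_Icc_of_le (by norm_num)]
    exact hg
  have hmul : ∀ k : ℝ → ℝ, Continuous k → IntervalIntegrable (fun x => g x * k x) volume (-1) 1 := fun k hk =>
    hgi.mul_continuousOn hk.continuousOn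
  set c := ∫ x in (-1 : ℝ)..1, g x * χ x with hc
  refine hne ⟨c, ?_⟩
  have key : ∀ᵐ x ∂volume, x ∈ Ioo (-1 : ℝ) 1 → g x - c = 0 := by
    refine IsOpen.ae_eq_zero_of_integral_contDiff_smul_eq_zero isOpen_Ioo ?_ ?_
    · have h5 : IntegrableOn (fun x => g x - c) (Icc (-1) 1) :=
        hg.sub (integrableOn_const (by rw [Real.volume_Icc]; exact ENNReal.ofReal_ne_top))
      exact (h5.mono_set Ioo_subset_Icc_self).locallyIntegrableOn
    · intro φ h1 h2 h3
      obtain ⟨I, hI⟩ : ∃ I : ℝ, I = ∫ x, φ x := ⟨_, rfl⟩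
      have hφc : Continuous φ := h1.continuous
      have hχc : Continuous χ := hχ1.continuous
      have e1 : ContDiff ℝ ∞ (fun x => φ x - I * χ x) := h1.sub (contDiff_const.mul hχ1)
      have e2 : HasCompactSupport (fun x => φ x - I * χ x) := h2.sub (hχ2.mul_left)
      have e3 : tsupport (fun x => φ x - I * χ x) ⊆ Ioo (-1) 1 := by
        refine (tsupport_sub φ (fun x => I * χ x)).trans ?_
        refine union_subset h3 ?_
        exact (tsupport_mul_subset_right (f := fun _ => I) (g := χ)).trans hχ3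
      have e4 : ∫ x, (φ x - I * χ x) = 0 := by
        rw [integral_sub (hφc.integrable_of_hasCompactSupport h2) ((hχc.integrable_of_hasCompactSupport hχ2).const_mul I),
          integral_const_mul, hχ4, ← hI]
        ring
      obtain ⟨Ψ, p1, p2, p3, p4⟩ := prim_ex e1 e2 e3 e4
      have h5 := hcon Ψ p1 p2 p3
      rw [p4] at h5
      have h6 : ∫ x in (-1 : ℝ)..1, g x * (φ x - I * χ x) = (∫ x in (-1 : ℝ)..1, g x * φ x) - I * c := by
        rw [hc, ← intervalIntegral.integral_const_mul, ← intervalIntegral.integral_sub (hmul φ hφc) ((hmul χ hχc).const_mul I)]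
        refine intervalIntegral.integral_congr fun x _ => ?_
        show g x * (φ x - I * χ x) = g x * φ x - I * (g x * χ x)
        ring
      rw [h6] at h5
      have hsub : Function.support φ ⊆ Ioc (-1 : ℝ) 1 := fun x hx => by
        have := h3 (subset_tsupport φ hx)
        exact ⟨this.1, this.2.le⟩
      have h7 : ∫ x, φ x • (g x - c) = ∫ x in (-1 : ℝ)..1, φ x * (g x - c) := by
        symm
        refine intervalIntegral.integral_eq_integral_of_support_subset fun x hx => ?_
        refine hsub fun h8 => hx ?_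
        show φ x * (g x - c) = 0
        rw [h8, zero_mul]
      have h8 : ∫ x in (-1 : ℝ)..1, φ x = I := by
        rw [hI]
        exact intervalIntegral.integral_eq_integral_of_support_subset hsub
      rw [h7]
      have h9 : ∫ x in (-1 : ℝ)..1, φ x * (g x - c) = (∫ x in (-1 : ℝ)..1, g x * φ x) - c * ∫ x in (-1 : ℝ)..1, φ x := by
        rw [← intervalIntegral.integral_const_mul, ← intervalIntegral.integral_sub (hmul φ hφc)
          ((hφc.intervalIntegrable _ _).const_mul c)]
        refine intervalIntegral.integral_congr fun x _ => ?_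
        show φ x * (g x - c) = g x * φ x - c * φ x
        ring
      rw [h9, h8]
      linarith
  rw [restrict_Ioo_eq_restrict_Icc.symm, ae_restrict_iff' measurableSet_Ioo]
  filter_upwards [key] with x hx hx'
  linarith [hx hx']

/-- T7: the test function -/
theorem exists_test {g : ℝ → ℝ} (hi : IntegrableOn g (Ioo (-1) 1))
    (hc : ¬ ∃ c : ℝ, ∀ᵐ x ∂(volume.restrict (Ioo (-1 : ℝ) 1)), g x = c) :
    ∃ Psi : ℝ → ℝ, ContDiff ℝ ∞ Psi ∧ HasCompactSupport Psi ∧ tsupport Psi ⊆ Ioo (-1) 1 ∧
      ∫ x in (-1 : ℝ)..1, g x * deriv Psi x ≠ 0 := by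
  rw [← integrableOn_Icc_iff_integrableOn_Ioo] at hi
  rw [restrict_Ioo_eq_restrict_Icc] at hc
  exact exists_psi hi hc

end Pool.Agent.Helper89.TOL
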